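import Pool.Agent.V1190.HD.Fam

/-! Every analytic set of admissible values is the set of Hausdorff dimensions of a compact
family of compact subsets of an arbitrary compact metric space. -/

open MeasureTheory Set Metric Filter Topology TopologicalSpace
open scoped ENNReal NNReal

namespace Pool.Agent.Results.MP_65ee2d_an.CompactFamilies

open Pool.Agent.V1190.HD

variable {K : Type*} [MetricSpace K] [CompactSpace K]

/-- A sequence of compact sets shrinking to a point, together with the point, is compact. -/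
lemma compact_of_shrink {X : Type*} [TopologicalSpace X] (z : X) (F : ℕ → Set X)
    (hF : ∀ n, IsCompact (F n)) (hz : ∀ U ∈ 𝓝 z, ∀ᶠ n in atTop, F n ⊆ U) :
    IsCompact ({z} ∪ ⋃ n, F n) := by
  apply isCompact_of_finite_subcover
  intro ι U hU hcov
  classical
  obtain ⟨i0, hi0⟩ := mem_iUnion.1 (hcov (Or.inl rfl))
  obtain ⟨N, hN⟩ := eventually_atTop.1 (hz (U i0) ((hU i0).mem_nhds hi0))
  have hc : IsCompact (⋃ n ∈ Finset.range N, F n) :=
    Finset.isCompact_biUnion _ fun n _ => hF n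
  obtain ⟨t, ht⟩ := hc.elim_finite_subcover U hU (by
    intro x hx
    obtain ⟨n, -, hx⟩ := mem_iUnion₂.1 hx
    exact hcov (Or.inr (mem_iUnion.2 ⟨n, hx⟩)))
  refine ⟨insert i0 t, ?_⟩
  rintro x (hx | hx)
  · rw [mem_singleton_iff.1 hx]
    exact mem_iUnion₂.2 ⟨i0, Finset.mem_insert_self _ _, hi0⟩
  · obtain ⟨n, hx⟩ := mem_iUnion.1 hx
    by_cases hn : n < N
    · obtain ⟨i, hi, hxi⟩ := mem_iUnion₂.1 (ht (mem_iUnion₂.2 ⟨n, Finset.mem_range.2 hn, hx⟩))
      exact mem_iUnion₂.2 ⟨i, Finset.mem_insert_of_mem hi, hxi⟩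
    · exact mem_iUnion₂.2 ⟨i0, Finset.mem_insert_self _ _, hN n (not_lt.1 hn) hx⟩

omit [CompactSpace K] in
/-- Finite approximation of a nonempty compact set. -/
lemma exists_finite_approx (H : NonemptyCompacts K) {ε : ℝ} (hε : 0 < ε) :
    ∃ F : NonemptyCompacts K, (F : Set K).Finite ∧ (F : Set K) ⊆ H ∧
      ∀ x ∈ (H : Set K), ∃ y ∈ (F : Set K), dist x y ≤ ε := by
  obtain ⟨s, hsH, hsf, hcov⟩ := H.isCompact.finite_cover_balls hε
  have hne : s.Nonempty := by
    obtain ⟨x, hx⟩ := H.nonempty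
    obtain ⟨y, hy, -⟩ := mem_iUnion₂.1 (hcov hx)
    exact ⟨y, hy⟩
  refine ⟨⟨⟨s, hsf.isCompact⟩, hne⟩, hsf, hsH, ?_⟩
  intro x hx
  obtain ⟨y, hy, hxy⟩ := mem_iUnion₂.1 (hcov hx)
  exact ⟨y, hy, (mem_ball.1 hxy).le⟩

/-- For every non-empty compact metric space `K` and every analytic set `A` of values
not exceeding the Hausdorff dimension of `K` there is a compact family of non-empty compact
subsets of `K` whose set of Hausdorff dimensions is exactly `A`. -/
theorem result [Nonempty K] (A : Set ℝ≥0∞) (hA : AnalyticSet A)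
    (hAK : ∀ a ∈ A, a ≤ dimH (univ : Set K)) :
    ∃ Fm : Set (NonemptyCompacts K), IsCompact Fm ∧
      (fun C : NonemptyCompacts K => dimH (C : Set K)) '' Fm = A := by
  rcases A.eq_empty_or_nonempty with rfl | hAne
  · exact ⟨∅, isCompact_empty, image_empty _⟩
  set D := dimH (univ : Set K) with hD
  obtain ⟨p, hp⟩ := exists_full_point (K := K)
  have hex : ∀ (a : ℝ≥0∞) (k : ℕ), ∃ C : Set K, a ≤ D → (IsCompact C ∧
      C ⊆ closedBall p ((1 / 2) ^ k) ∧ dimH C = a) := by
    intro a k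
    by_cases ha : a ≤ D
    · have hpos : (0 : ℝ) < (1 / 2) ^ k := by positivity
      obtain ⟨C, h1, h2, -, h3⟩ := exists_compact_dimH
        (V := closedBall p ((1 / 2 : ℝ) ^ k)) (isClosed_closedBall.isCompact)
        ⟨p, mem_closedBall_self hpos.le⟩ (a := a) (by rw [hp _ hpos]; exact ha)
      exact ⟨C, fun _ => ⟨h2, h1, h3⟩⟩
    · exact ⟨∅, fun h => absurd h ha⟩
  choose pc hpc' using hex
  have hpc : ∀ a ≤ D, ∀ k, IsCompact (pc a k) ∧ pc a k ⊆ closedBall p ((1 / 2) ^ k) ∧
      dimH (pc a k) = a := fun a ha k => hpc' a k ha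
  -- subfamilies with a smallest element
  have hsub : ∀ b ∈ A, ∀ k0 : ℕ, ∃ Fm : Set (NonemptyCompacts K), IsCompact Fm ∧
      (∀ C ∈ Fm, (C : Set K) ⊆ closedBall p ((1 / 2) ^ k0)) ∧
      (fun C : NonemptyCompacts K => dimH (C : Set K)) '' Fm = A ∩ Ici b := by
    intro b hb k0
    have hAb : AnalyticSet (A ∩ Ici b) := by
      obtain rfl | ⟨g, hg, hgA⟩ := (by rwa [AnalyticSet] at hA :
        A = ∅ ∨ ∃ g : (ℕ → ℕ) → ℝ≥0∞, Continuous g ∧ range g = A)
      · exact absurd hAne (by simp)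
      · have h1 : AnalyticSet (g ⁻¹' Ici b) := (isClosed_Ici.preimage hg).analyticSet
        have h2 := h1.image_of_continuous hg
        rwa [image_preimage_eq_range_inter, hgA] at h2
    obtain h0 | ⟨f, hf, hfA⟩ := (by rwa [AnalyticSet] at hAb :
        A ∩ Ici b = ∅ ∨ ∃ g : (ℕ → ℕ) → ℝ≥0∞, Continuous g ∧ range g = A ∩ Ici b)
    · have : b ∈ A ∩ Ici b := ⟨hb, mem_Ici.2 le_rfl⟩
      rw [h0] at this
      exact absurd this (notMem_empty _)
    · have hmem : ∀ y, f y ∈ A ∩ Ici b := fun y => by rw [← hfA]; exact ⟨y, rfl⟩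
      obtain ⟨Fm, h1, h2, h3⟩ := tree_family (p := p) (pc := pc) hf
        (b := b) (by rw [hfA]; exact ⟨hb, mem_Ici.2 le_rfl⟩) (fun y => (hmem y).2)
        (fun y => hAK _ (hmem y).1) hpc k0
      exact ⟨Fm, h1, h2, by rw [h3, hfA]⟩
  by_cases hmin : ∃ b ∈ A, ∀ a ∈ A, b ≤ a
  · obtain ⟨b, hb, hba⟩ := hmin
    obtain ⟨Fm, h1, -, h3⟩ := hsub b hb 0
    refine ⟨Fm, h1, ?_⟩
    rw [h3]
    exact inter_eq_left.2 fun a ha => hba a ha
  · push Not at hmin
    obtain ⟨b, -, hbt, hbA⟩ := exists_seq_tendsto_sInf hAne (OrderBot.bddBelow A)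
    have hcoinit : ∀ a ∈ A, ∃ n, b n ≤ a := by
      intro a ha
      obtain ⟨a', ha', hlt⟩ := hmin a ha
      have h1 : sInf A < a := (sInf_le ha').trans_lt hlt
      obtain ⟨n, hn⟩ := (hbt.eventually (gt_mem_nhds h1)).exists
      exact ⟨n, hn.le⟩
    choose G hG1 hG2 hG3 using fun n => hsub (b n) (hbA n) n
    have hb0 : b 0 ≤ D := hAK _ (hbA 0)
    set H : NonemptyCompacts K := ⟨⟨{p} ∪ pc (b 0) 0, isCompact_singleton.union
      (hpc _ hb0 0).1⟩, ⟨p, Or.inl rfl⟩⟩ with hH
    have hHd : dimH (H : Set K) = b 0 := by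
      change dimH ({p} ∪ pc (b 0) 0) = b 0
      rw [dimH_union, dimH_singleton, max_eq_right (zero_le), (hpc _ hb0 0).2.2]
    have hHp : p ∈ (H : Set K) := Or.inl rfl
    choose F hFf hFH hFd using fun n : ℕ =>
      exists_finite_approx H (show (0 : ℝ) < (1 / 2) ^ n by positivity)
    have hclose : ∀ n, ∀ C ∈ G n, dist (F n ⊔ C) H ≤ (1 / 2) ^ n := by
      intro n C hC
      have hpos : (0 : ℝ) < (1 / 2) ^ n := by positivity
      rw [Metric.NonemptyCompacts.dist_eq]
      apply hausdorffDist_le_of_mem_dist hpos.le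
      · intro x hx
        rw [NonemptyCompacts.coe_sup] at hx
        rcases hx with hx | hx
        · exact ⟨x, hFH n hx, by rw [dist_self]; exact hpos.le⟩
        · exact ⟨p, hHp, mem_closedBall.1 (hG2 n C hC hx)⟩
      · intro x hx
        obtain ⟨y, hy, hxy⟩ := hFd n x hx
        refine ⟨y, ?_, hxy⟩
        rw [NonemptyCompacts.coe_sup]
        exact Or.inl hy
    refine ⟨{H} ∪ ⋃ n, (fun C => F n ⊔ C) '' G n, ?_, ?_⟩
    · apply compact_of_shrink
      · intro n
        apply (hG1 n).image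
        exact NonemptyCompacts.lipschitz_sup.continuous.comp
          (continuous_const.prodMk continuous_id)
      · intro U hU
        obtain ⟨ε, hε, hεU⟩ := Metric.mem_nhds_iff.1 hU
        obtain ⟨k, hk⟩ := exists_pow_lt hε
        refine eventually_atTop.2 ⟨k, fun n hn => ?_⟩
        rintro _ ⟨C, hC, rfl⟩
        apply hεU
        rw [mem_ball]
        refine (hclose n C hC).trans_lt (lt_of_le_of_lt ?_ hk)
        exact pow_le_pow_of_le_one (by norm_num) (by norm_num) hn
    · have hdim : ∀ n C, dimH ((F n ⊔ C : NonemptyCompacts K) : Set K) = dimH (C : Set K) := by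
        intro n C
        rw [NonemptyCompacts.coe_sup, dimH_union, dimH_finite (hFf n), max_eq_right (zero_le)]
      apply subset_antisymm
      · rintro _ ⟨C, hC, rfl⟩
        rcases hC with hC | hC
        · rw [mem_singleton_iff.1 hC]
          simp only [hHd]
          exact hbA 0
        · obtain ⟨n, C', hC', rfl⟩ := mem_iUnion.1 hC
          simp only [hdim]
          have : dimH (C' : Set K) ∈ A ∩ Ici (b n) := by
            rw [← hG3 n]
            exact ⟨C', hC', rfl⟩
          exact this.1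
      · intro a ha
        obtain ⟨n, hn⟩ := hcoinit a ha
        have : a ∈ A ∩ Ici (b n) := ⟨ha, hn⟩
        rw [← hG3 n] at this
        obtain ⟨C, hC, hCa⟩ := this
        refine ⟨F n ⊔ C, Or.inr (mem_iUnion.2 ⟨n, C, hC, rfl⟩), ?_⟩
        simp only [hdim]
        exact hCa

end Pool.Agent.Results.MP_65ee2d_an.CompactFamilies
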